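import Mathlib

/-!
# Definitions for the project NS (a non-sofic group)
-/

set_option autoImplicit false

namespace Pool.Agent.N44.NS

/-- The data of the criterion: `θ`, `η` are endomorphisms of `G` with commuting images, `h θ(G) h⁻¹`
contains `θ(G)` and `η(G)`, and `G` is generated by the elements `g` with `θ(G) ≤ g θ(G) g⁻¹`. -/
structure Dat (G : Type) [Group G] (θ η : G →* G) (h : G) : Prop where
  inj : Function.Injective η
  comm : ∀ a b, θ a * η b = η b * θ a
  mono : ∀ a, ∃ b, θ a = h * θ b * h⁻¹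
  sub : ∀ a, ∃ b, η a = h * θ b * h⁻¹
  gen : Subgroup.closure {g : G | ∀ a, ∃ b, θ a = g * θ b * g⁻¹} = ⊤
  perf : commutator G = ⊤
  nontriv : ∃ g : G, g ≠ 1

/-- `G` is locally embeddable into finite groups. -/
def LEF (G : Type) [Group G] : Prop :=
  ∀ F : Finset G, ∃ (Q : Type) (_ : Group Q) (_ : Finite Q) (φ : G → Q),
    (∀ a ∈ F, ∀ b ∈ F, a * b ∈ F → φ (a * b) = φ a * φ b) ∧
      ∀ a ∈ F, ∀ b ∈ F, a ≠ b → φ a ≠ φ b

section E3

variable {A : Type} [Ring A]

theorem single_sq {i j : Fin 3} (h : i ≠ j) (a b : A) :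
    Matrix.single i j a * Matrix.single i j b = 0 := by
  rw [Matrix.single_mul_single_of_ne _ _ _ _ h.symm]

/-- the elementary matrix `1 + a E_ij` -/
def el (i j : Fin 3) (h : i ≠ j) (a : A) : (Matrix (Fin 3) (Fin 3) A)ˣ where
  val := 1 + Matrix.single i j a
  inv := 1 - Matrix.single i j a
  val_inv := by
    rw [mul_sub, add_mul, add_mul, single_sq h a a]
    simp
  inv_val := by
    rw [mul_add, sub_mul, sub_mul, single_sq h a a]
    simp

/-- the elementary group `E_3(A)` -/
def E3 (A : Type) [Ring A] : Subgroup (Matrix (Fin 3) (Fin 3) A)ˣ :=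
  Subgroup.closure {g | ∃ (i j : Fin 3) (h : i ≠ j) (a : A), g = el i j h a}

end E3

/-- the relations of the Leavitt algebra of type (1,2) -/
structure Leav {A : Type} [Ring A] (x1 x2 y1 y2 : A) : Prop where
  r11 : y1 * x1 = 1
  r22 : y2 * x2 = 1
  r12 : y1 * x2 = 0
  r21 : y2 * x1 = 0
  rs : x1 * y1 + x2 * y2 = 1

end Pool.Agent.N44.NS
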