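import Pool.Agent.N44.NS.Stm
import Pool.Agent.N303.KQ.FG

/-!
# Project NS: the analytic part from its steps
-/

set_option autoImplicit false

namespace Pool.Agent.N44.NS

open Finset
open Pool.Agent.N303.KS
open Pool.Agent.H21R2 (IsSofic)
open Pool.Agent.W661.RC (HasT)

noncomputable section

/-- most points lie in pieces which are moved mostly into one piece -/
theorem mono_count {V : Type} [Fintype V] {k : ℕ} {ρ : FreeGroup (Fin k) →* Equiv.Perm V}
    {Z : V → Prop} {κ τ τ₁ : ℝ} {L : V → Option V} (hS : Sys ρ Z κ τ τ₁ L) (hκ : 0 < κ)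
    (hκ1 : κ ≤ 1 / 100) (hτ : 0 < τ) (hZ : ct Z ≤ τ₁ * Fintype.card V) {Λ : ℝ} (hΛ : 0 ≤ Λ)
    {w : Fin k → FreeGroup (Fin k)} (hw : WB Λ w) (hnum : τ₁ * (1 + k * (1 + Λ)) ≤ κ * τ)
    (hτ₁ : 0 ≤ τ₁) {α : Equiv.Perm V} (hα : Tw ρ Z w α⁻¹) :
    ∃ f : V → V, (ct fun x => ¬ ∃ i, L x = some i ∧ L (α x) = some (f i) ∧
      (1 - κ) * sz L i ≤ ov L α i (f i)) ≤ 5 * κ * Fintype.card V := by
  classical
  set n : ℝ := (Fintype.card V : ℝ) with hn
  have hn0 : 0 ≤ n := Nat.cast_nonneg _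
  set good : V → Prop := fun i => ∃ j, 0 < sz L i ∧ (1 - κ) * sz L i ≤ ov L α i j with hgood
  set f : V → V := fun i => if h : good i then h.choose else i with hf
  have hfg : ∀ i, good i → (1 - κ) * sz L i ≤ ov L α i (f i) := by
    intro i hi
    rw [hf]
    simp only [dif_pos hi]
    exact hi.choose_spec.2
  refine ⟨f, ?_⟩
  have h1 : ∑ i ∈ univ.filter (fun i => ¬ good i), sz L i ≤ 3 * κ * n :=
    moves1 hS hκ hκ1 hτ hZ hΛ hw hnum hτ₁ hα _ fun i hi => hi
  have h2 : (ct fun x => ¬ ∃ i, L x = some i ∧ L (α x) = some (f i) ∧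
      (1 - κ) * sz L i ≤ ov L α i (f i)) ≤ (ct fun x => L x = none) +
      ((ct fun x => ∃ i ∈ univ.filter (fun i => ¬ good i), L x = some i) +
        ct fun x => ∃ i ∈ univ.filter (fun i => good i), L x = some i ∧ ¬ L (α x) = some (f i)) := by
    refine (ct_le_add (q := fun x => L x = none) (r := fun x =>
      (∃ i ∈ univ.filter (fun i => ¬ good i), L x = some i) ∨
        ∃ i ∈ univ.filter (fun i => good i), L x = some i ∧ ¬ L (α x) = some (f i)) ?_).trans
      (add_le_add le_rfl (ct_le_add fun x hx => hx))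
    intro x hx
    rcases h : L x with _ | i
    · exact Or.inl rfl
    · right
      by_cases hi : good i
      · right
        refine ⟨i, mem_filter.2 ⟨mem_univ _, hi⟩, rfl, fun h' => hx ⟨i, h, h', hfg i hi⟩⟩
      · left
        exact ⟨i, mem_filter.2 ⟨mem_univ _, hi⟩, rfl⟩
  have h3 : (ct fun x => ∃ i ∈ univ.filter (fun i => ¬ good i), L x = some i) ≤ 3 * κ * n :=
    (ct_le_sum _ _ fun x hx => hx).trans h1
  have h4 : (ct fun x => ∃ i ∈ univ.filter (fun i => good i), L x = some i ∧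
      ¬ L (α x) = some (f i)) ≤ κ * n := by
    refine (ct_le_sum (univ.filter fun i => good i)
      (fun i x => L x = some i ∧ ¬ L (α x) = some (f i)) fun x hx => hx).trans ?_
    have h5 : ∀ i ∈ univ.filter (fun i => good i),
        (ct fun x => L x = some i ∧ ¬ L (α x) = some (f i)) ≤ κ * sz L i := by
      intro i hi
      have h6 := ct_split (fun x => L x = some i) (fun x => L (α x) = some (f i))
      have h7 := hfg i (mem_filter.1 hi).2
      unfold ov at h7
      unfold sz at *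
      linarith
    refine (sum_le_sum h5).trans ?_
    rw [← mul_sum]
    refine mul_le_mul_of_nonneg_left ?_ hκ.le
    refine (sum_le_sum_of_subset_of_nonneg (filter_subset _ _) fun i _ _ => sz_nonneg L i).trans ?_
    rw [sum_sz]
    have := ct_nonneg fun x => L x = none
    linarith
  have h8 := hS.cov
  linarith

/-- elements of a closure are in the closure of a finite subset -/
theorem mem_closure_fin {G : Type} [Group G] {S : Set G} {g : G} (hg : g ∈ Subgroup.closure S) :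
    ∃ T : Finset G, (∀ t ∈ T, t ∈ S) ∧ g ∈ Subgroup.closure (T : Set G) := by
  classical
  induction hg using Subgroup.closure_induction with
  | mem x hx => exact ⟨{x}, by simpa using hx, Subgroup.subset_closure (by simp)⟩
  | one => exact ⟨∅, by simp, one_mem _⟩
  | mul x y _ _ hx hy =>
    obtain ⟨T, h1, h2⟩ := hx
    obtain ⟨T', h1', h2'⟩ := hy
    refine ⟨T ∪ T', ?_, mul_mem ?_ ?_⟩
    · intro t ht
      rcases mem_union.1 ht with h | h
      · exact h1 t h
      · exact h1' t h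
    · exact Subgroup.closure_mono (by simp) h2
    · exact Subgroup.closure_mono (by simp) h2'
  | inv x _ hx =>
    obtain ⟨T, h1, h2⟩ := hx
    exact ⟨T, h1, inv_mem h2⟩

/-- a finite generating family in a generating set of a Kazhdan group -/
theorem exists_gen {G : Type} [Group G] (hT : HasT G) {S : Set G} (hS : Subgroup.closure S = ⊤)
    {h : G} (hh : h ∈ S) : ∃ (m : ℕ) (γ : FreeGroup (Fin m) →* G) (s0 : Fin m),
      Function.Surjective γ ∧ (∀ s, γ (FreeGroup.of s) ∈ S) ∧ γ (FreeGroup.of s0) = h := by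
  classical
  obtain ⟨k, γ0, hγ0⟩ := Pool.Agent.N303.KQ.exists_free hT
  have h1 : ∀ s : Fin k, ∃ T : Finset G, (∀ t ∈ T, t ∈ S) ∧
      γ0 (FreeGroup.of s) ∈ Subgroup.closure (T : Set G) := fun s =>
    mem_closure_fin (by rw [hS]; exact Subgroup.mem_top _)
  choose T hT1 hT2 using h1
  set U : Finset G := insert h (univ.biUnion T) with hU
  have hUS : ∀ t ∈ U, t ∈ S := by
    intro t ht
    rcases mem_insert.1 ht with rfl | ht
    · exact hh
    · obtain ⟨s, -, hs⟩ := mem_biUnion.1 ht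
      exact hT1 s t hs
  have hclos : Subgroup.closure (U : Set G) = ⊤ := by
    rw [eq_top_iff, ← MonoidHom.range_eq_top.2 hγ0]
    rintro _ ⟨w, rfl⟩
    induction w using FreeGroup.induction_on with
    | C1 => rw [map_one]; exact one_mem _
    | of s =>
      refine Subgroup.closure_mono ?_ (hT2 s)
      intro t ht
      exact mem_insert_of_mem (mem_biUnion.2 ⟨s, mem_univ _, ht⟩)
    | inv_of s hs => rw [map_inv]; exact inv_mem hs
    | mul u v hu hv => rw [map_mul]; exact mul_mem hu hv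
  refine ⟨U.card, FreeGroup.lift fun i => (U.equivFin.symm i).1, U.equivFin ⟨h, mem_insert_self _ _⟩,
    ?_, ?_, ?_⟩
  · rw [← MonoidHom.range_eq_top, FreeGroup.range_lift_eq_closure, ← hclos]
    congr 1
    ext g
    constructor
    · rintro ⟨i, rfl⟩
      exact (U.equivFin.symm i).2
    · intro hg
      exact ⟨U.equivFin ⟨g, hg⟩, by simp⟩
  · intro s
    rw [FreeGroup.lift_apply_of]
    exact hUS _ (U.equivFin.symm s).2
  · rw [FreeGroup.lift_apply_of]
    simp

open Classical in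
/-- size of the piece of a point -/
def X0 {V : Type} [Fintype V] (L : V → Option V) (x : V) : ℝ :=
  match L x with
  | none => 0
  | some i => sz L i

theorem X0_some {V : Type} [Fintype V] {L : V → Option V} {x i : V} (h : L x = some i) :
    X0 L x = sz L i := by
  unfold X0
  rw [h]

theorem X0_nonneg {V : Type} [Fintype V] (L : V → Option V) (x : V) : 0 ≤ X0 L x := by
  unfold X0
  split
  · exact le_rfl
  · exact sz_nonneg _ _

theorem X0_zero {V : Type} [Fintype V] {L : V → Option V} {x : V} (h : X0 L x = 0) :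
    L x = none := by
  rcases hx : L x with _ | i
  · rfl
  · exfalso
    rw [X0_some hx] at h
    have : (1 : ℝ) ≤ sz L i := ct_pos' (p := fun y => L y = some i) hx
    linarith

/-- **The analytic part from its steps.** -/
theorem main (hWo : S_WORDS) (hLv : S_LEVEL) (hMv : S_MOVE) (hPc : S_PIECE) : S_MAIN := by
  classical
  intro G _ θ η h hT hD hG F
  -- generators
  obtain ⟨m, γ, s0, hγ, hmon, hs0⟩ := exists_gen hT hD.gen (show h ∈ {g : G | ∀ a, ∃ b,
    θ a = g * θ b * g⁻¹} from hD.mono)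
  -- words
  have hW : ∀ s t : Fin m, ∃ w : FreeGroup (Fin m),
      θ (γ (FreeGroup.of t)) * γ (FreeGroup.of s) = γ (FreeGroup.of s) * θ (γ w) := by
    intro s t
    obtain ⟨b, hb⟩ := hmon s (γ (FreeGroup.of t))
    obtain ⟨w, rfl⟩ := hγ b
    refine ⟨w, ?_⟩
    rw [hb]
    group
  choose W hW using hW
  have hU : ∀ g : G, ∃ u : FreeGroup (Fin m), h⁻¹ * η g = θ (γ u) * h⁻¹ := by
    intro g
    obtain ⟨b, hb⟩ := hD.sub g
    obtain ⟨w, rfl⟩ := hγ b
    refine ⟨w, ?_⟩
    rw [hb]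
    group
  choose U hU using hU
  -- constants
  obtain ⟨τ', hτ'0, hτ'κ, hsys'⟩ := exists_sys γ hT hγ (show (0 : ℝ) < 1 / 1000 by norm_num)
    (by norm_num)
  obtain ⟨b, hb0, hb1, hlev⟩ := hLv m (1 / 1000) τ' (1 / 10) (by norm_num) (by norm_num) hτ'0
    (by norm_num) (by norm_num)
  obtain ⟨ε', hε'0, hε'b, Rel', hRel', hsys'⟩ := hsys' b hb0 (by linarith)
  set κ : ℝ := b / 16 with hκ
  have hκ0 : 0 < κ := by positivity
  have hκ1 : κ ≤ 1 / 16000 := by rw [hκ]; linarith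
  obtain ⟨τ, hτ0, hτκ, hsys⟩ := exists_sys γ hT hγ hκ0 (show κ ≤ 1 / 100 by linarith)
  choose len hlen using fun w : FreeGroup (Fin m) => word_bd w
  set 𝒲 : Finset (FreeGroup (Fin m)) :=
    ((univ : Finset (Fin m × Fin m)).image fun p => W p.1 p.2) ∪
    (F.image U) ∪ ((univ : Finset (Fin m)).image fun s => FreeGroup.of s) with h𝒲
  set Λ : ℝ := 1 + ∑ w ∈ 𝒲, (len w : ℝ) with hΛ
  have hΛ0 : (0 : ℝ) ≤ ∑ w ∈ 𝒲, (len w : ℝ) := sum_nonneg fun _ _ => Nat.cast_nonneg _
  have hΛ1 : 1 ≤ Λ := by rw [hΛ]; linarith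
  have hlenΛ : ∀ w ∈ 𝒲, ∀ (B : Type) [Fintype B] (ρ : FreeGroup (Fin m) →* Equiv.Perm B)
      (p : B → Prop), (ct fun a => p a ∧ ¬ p (ρ w a)) ≤ Λ * bd ρ p := by
    intro w hw B _ ρ p
    refine (hlen w B ρ p).trans (mul_le_mul_of_nonneg_right ?_ (bd_nonneg ρ p))
    have h1 : (len w : ℝ) ≤ ∑ w ∈ 𝒲, (len w : ℝ) :=
      single_le_sum (f := fun w => (len w : ℝ)) (fun _ _ => Nat.cast_nonneg _) hw
    rw [hΛ]; linarith
  set τ₁ : ℝ := κ * τ / ((m + 2) * (1 + Λ)) with hτ₁
  have hm0 : (0 : ℝ) ≤ m := Nat.cast_nonneg m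
  have hden : 0 < ((m : ℝ) + 2) * (1 + Λ) := by positivity
  have hτ₁0 : 0 < τ₁ := by rw [hτ₁]; positivity
  have hnum : τ₁ * ((m + 2) * (1 + Λ)) = κ * τ := by
    rw [hτ₁]; field_simp
  have hn : Num m κ τ τ₁ Λ := ⟨hκ0, by linarith, hτ0, hτκ, hτ₁0.le, hΛ1, hnum.le⟩
  obtain ⟨ε, hε0, hετ, Rel, hRel, hsys⟩ := hsys τ₁ hτ₁0 (by linarith [hn.a3])
  -- words in the free group on `G`
  set jG : FreeGroup (Fin m) →* FreeGroup G :=
    FreeGroup.lift fun s => FreeGroup.of (γ (FreeGroup.of s)) with hjG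
  set jK : FreeGroup (Fin m) →* FreeGroup G :=
    FreeGroup.lift fun s => FreeGroup.of (θ (γ (FreeGroup.of s))) with hjK
  have hcG : ∀ w, cn G (jG w) = γ w := by
    intro w
    have h1 : (cn G).comp jG = γ := by
      ext s
      simp [hjG]
    exact DFunLike.congr_fun h1 w
  have hcK : ∀ w, cn G (jK w) = θ (γ w) := by
    intro w
    have h1 : (cn G).comp jK = θ.comp γ := by
      ext s
      simp [hjK]
    exact DFunLike.congr_fun h1 w
  have hco : ∀ g : G, cn G (FreeGroup.of g) = g := fun g => by simp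
  set E1 : Finset (FreeGroup G) := (univ : Finset (Fin m × Fin m)).image fun p =>
    (FreeGroup.of (γ (FreeGroup.of p.1)) * jK (W p.1 p.2))⁻¹ *
      (jK (FreeGroup.of p.2) * FreeGroup.of (γ (FreeGroup.of p.1))) with hE1
  set E2 : Finset (FreeGroup G) := (F ×ˢ (univ : Finset (Fin m))).image fun p =>
    (FreeGroup.of (η p.1) * jK (FreeGroup.of p.2))⁻¹ *
      (jK (FreeGroup.of p.2) * FreeGroup.of (η p.1)) with hE2
  set E3 : Finset (FreeGroup G) := F.image fun g =>
    (jK (U g) * (FreeGroup.of h)⁻¹)⁻¹ * ((FreeGroup.of h)⁻¹ * FreeGroup.of (η g)) with hE3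
  set E4 : Finset (FreeGroup G) := (F ×ˢ F).image fun p =>
    (FreeGroup.of (η p.1) * FreeGroup.of (η p.2))⁻¹ * FreeGroup.of (η (p.1 * p.2)) with hE4
  set E : Finset (FreeGroup G) := Rel'.image jG ∪ (Rel.image jK ∪ (E1 ∪ (E2 ∪ (E3 ∪ E4)))) with hE
  set E' : Finset (FreeGroup G) := ((F ×ˢ F).filter fun p => p.1 ≠ p.2).image fun p =>
    (FreeGroup.of (η p.2))⁻¹ * FreeGroup.of (η p.1) with hE'
  have hEc : ∀ r ∈ E, cn G r = 1 := by
    intro r hr
    rw [hE] at hr
    simp only [mem_union] at hr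
    rcases hr with hr | hr | hr | hr | hr | hr
    · obtain ⟨w, hw, rfl⟩ := mem_image.1 hr
      rw [hcG, hRel' w hw]
    · obtain ⟨w, hw, rfl⟩ := mem_image.1 hr
      rw [hcK, hRel w hw, map_one]
    · obtain ⟨p, -, rfl⟩ := mem_image.1 hr
      rw [map_mul, map_inv, inv_mul_eq_one, map_mul, map_mul, hcK, hcK, hco]
      exact (hW p.1 p.2).symm
    · obtain ⟨p, -, rfl⟩ := mem_image.1 hr
      rw [map_mul, map_inv, inv_mul_eq_one, map_mul, map_mul, hcK, hco]
      exact (hD.comm _ _).symm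
    · obtain ⟨g, -, rfl⟩ := mem_image.1 hr
      rw [map_mul, map_inv, inv_mul_eq_one, map_mul, map_mul, map_inv, hcK, hco, hco]
      exact (hU g).symm
    · obtain ⟨p, -, rfl⟩ := mem_image.1 hr
      rw [map_mul, map_inv, inv_mul_eq_one, map_mul, hco, hco, hco, map_mul]
  have hEc' : ∀ v ∈ E', cn G v ≠ 1 := by
    intro v hv
    obtain ⟨p, hp, rfl⟩ := mem_image.1 hv
    rw [map_mul, map_inv, Ne, inv_mul_eq_one, hco, hco]
    intro h1
    exact (mem_filter.1 hp).2 (hD.inj h1.symm)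
  obtain ⟨d, hd, Ψ, hct⟩ := hWo G hG E E' hEc hEc' (min ε ε') (lt_min hε0 hε'0)
  set Z : Fin d → Prop := fun y => (∃ r ∈ E, Ψ r y ≠ y) ∨ ∃ v ∈ E', Ψ v y = y with hZ
  have hd0 : (0 : ℝ) < d := by exact_mod_cast hd
  have hZ1 : ct Z ≤ ε * Fintype.card (Fin d) := by
    rw [Fintype.card_fin]
    exact hct.trans (mul_le_mul_of_nonneg_right (min_le_left _ _) hd0.le)
  have hZ1' : ct Z ≤ ε' * Fintype.card (Fin d) := by
    rw [Fintype.card_fin]
    exact hct.trans (mul_le_mul_of_nonneg_right (min_le_right _ _) hd0.le)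
  have hZE : ∀ r ∈ E, ∀ x, ¬ Z x → Ψ r x = x := by
    intro r hr x hx
    by_contra h
    exact hx (Or.inl ⟨r, hr, h⟩)
  have hZE2 : ∀ w1 w2 : FreeGroup G, w2⁻¹ * w1 ∈ E → ∀ x, ¬ Z x → Ψ w1 x = Ψ w2 x := by
    intro w1 w2 hr x hx
    have h1 := hZE _ hr x hx
    rw [map_mul, map_inv, Equiv.Perm.mul_apply, Equiv.Perm.inv_eq_iff_eq] at h1
    exact h1
  obtain ⟨L', hS'⟩ := hsys' (Fin d) (Ψ.comp jG) Z hZ1' (by
    intro w hw x hx
    refine hZE (jG w) ?_ x hx
    rw [hE]
    exact mem_union_left _ (mem_image_of_mem _ hw))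
  obtain ⟨L, hS⟩ := hsys (Fin d) (Ψ.comp jK) Z hZ1 (by
    intro w hw x hx
    refine hZE (jK w) ?_ x hx
    rw [hE]
    exact mem_union_right _ (mem_union_left _ (mem_image_of_mem _ hw)))
  have hcard : (Fintype.card (Fin d) : ℝ) = d := by rw [Fintype.card_fin]
  have hZτ : ct Z ≤ τ₁ * Fintype.card (Fin d) :=
    hZ1.trans (mul_le_mul_of_nonneg_right hετ (by rw [hcard]; exact hd0.le))
  -- the generators move pieces into larger pieces
  have hcnt : ∀ s : Fin m, ∃ f : Fin d → Fin d, (ct fun x => ¬ ∃ i, L x = some i ∧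
      L ((Ψ.comp jG (FreeGroup.of s))⁻¹ x) = some (f i) ∧
      (1 - κ) * sz L i ≤ ov L (Ψ.comp jG (FreeGroup.of s))⁻¹ i (f i)) ≤
        5 * κ * Fintype.card (Fin d) := by
    intro s
    refine mono_count (w := W s) hS hκ0 (by linarith) hτ0 hZτ (by linarith) ?_ hn.a2 hτ₁0.le ?_
    · intro t B _ ρ' p
      refine hlenΛ (W s t) ?_ B ρ' p
      rw [h𝒲]
      exact mem_union_left _ (mem_union_left _ (mem_image.2 ⟨(s, t), mem_univ _, rfl⟩))
    · intro t x hx
      rw [inv_inv]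
      have h1 := hZE2 (jK (FreeGroup.of t) * FreeGroup.of (γ (FreeGroup.of s)))
        (FreeGroup.of (γ (FreeGroup.of s)) * jK (W s t)) (by
          rw [hE]
          refine mem_union_right _ (mem_union_right _ (mem_union_left _ ?_))
          exact mem_image.2 ⟨(s, t), mem_univ _, rfl⟩) x hx
      have h2 : Ψ.comp jG (FreeGroup.of s) = Ψ (FreeGroup.of (γ (FreeGroup.of s))) := by
        rw [MonoidHom.comp_apply, hjG, FreeGroup.lift_apply_of]
      rw [h2]
      rw [map_mul, map_mul] at h1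
      exact h1
  choose f hf using hcnt
  have hmono : ∀ s : Fin m, (ct fun x => X0 L ((Ψ.comp jG (FreeGroup.of s))⁻¹ x) <
      (1 - b) * X0 L x) ≤ b * Fintype.card (Fin d) := by
    intro s
    have h1 : (ct fun x => X0 L ((Ψ.comp jG (FreeGroup.of s))⁻¹ x) < (1 - b) * X0 L x) ≤
        5 * κ * Fintype.card (Fin d) := by
      refine le_trans (ct_mono ?_) (hf s)
      rintro x hx ⟨i, h1, h2, h3⟩
      rw [X0_some h1, X0_some h2] at hx
      have h4 := ov_le2 L (Ψ.comp jG (FreeGroup.of s))⁻¹ i (f s i)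
      have h5 := sz_nonneg L i
      have h6 : (1 - b) * sz L i ≤ (1 - κ) * sz L i :=
        mul_le_mul_of_nonneg_right (by rw [hκ]; linarith) h5
      linarith
    refine h1.trans (mul_le_mul_of_nonneg_right ?_ (Nat.cast_nonneg _))
    rw [hκ]; linarith
  have hzero : (ct fun x => X0 L x = 0) ≤ b * Fintype.card (Fin d) := by
    refine (ct_mono fun x hx => X0_zero hx).trans (hS.cov.trans ?_)
    refine mul_le_mul_of_nonneg_right ?_ (Nat.cast_nonneg _)
    rw [hκ]; linarith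
  have hconst := hlev (Fin d) (Ψ.comp jG) L' (X0 L) hS'.cov hS'.bdy hS'.irr (X0_nonneg L) hzero
    hmono s0
  -- a good piece
  obtain ⟨x, hx1, hx2⟩ : ∃ x, (∃ i, L x = some i ∧
      L ((Ψ.comp jG (FreeGroup.of s0))⁻¹ x) = some (f s0 i) ∧
      (1 - κ) * sz L i ≤ ov L (Ψ.comp jG (FreeGroup.of s0))⁻¹ i (f s0 i)) ∧
      X0 L ((Ψ.comp jG (FreeGroup.of s0))⁻¹ x) ≤ (1 + 1 / 10) * X0 L x := by
    by_contra hcon
    push Not at hcon
    have h1 : (ct fun _ : Fin d => True) ≤ _ + _ := ct_le_add (q := fun x => ¬ ∃ i, L x = some i ∧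
      L ((Ψ.comp jG (FreeGroup.of s0))⁻¹ x) = some (f s0 i) ∧
      (1 - κ) * sz L i ≤ ov L (Ψ.comp jG (FreeGroup.of s0))⁻¹ i (f s0 i))
      (r := fun x => ¬ X0 L ((Ψ.comp jG (FreeGroup.of s0))⁻¹ x) ≤ (1 + 1 / 10) * X0 L x)
      fun x _ => by
        by_cases c : ∃ i, L x = some i ∧
            L ((Ψ.comp jG (FreeGroup.of s0))⁻¹ x) = some (f s0 i) ∧
            (1 - κ) * sz L i ≤ ov L (Ψ.comp jG (FreeGroup.of s0))⁻¹ i (f s0 i)
        · right
          obtain ⟨i, c1, c2, c3⟩ := c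
          exact not_le.2 (hcon x ⟨i, c1, c2, c3⟩)
        · exact Or.inl c
    have h2 := hf s0
    rw [ct_univ] at h1
    rw [hcard] at h1 h2 hconst
    have h3 : 5 * κ * (d : ℝ) ≤ 5 * (1 / 16000) * d :=
      mul_le_mul_of_nonneg_right (by linarith) hd0.le
    linarith
  obtain ⟨i, hi1, hi2, hi3⟩ := hx1
  rw [X0_some hi1, X0_some hi2] at hx2
  have hipos : 0 < sz L i := by
    have : (1 : ℝ) ≤ sz L i := ct_pos' (p := fun y => L y = some i) hi1
    linarith
  have hα : (Ψ.comp jG (FreeGroup.of s0))⁻¹ = Ψ (FreeGroup.of h)⁻¹ := by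
    rw [MonoidHom.comp_apply, hjG, FreeGroup.lift_apply_of, hs0, map_inv]
  rw [hα] at hi2 hi3
  -- the elements of `L` preserve the piece
  have hTw : ∀ g ∈ F, Tw (Ψ.comp jK) Z (fun s => FreeGroup.of s) (Ψ (FreeGroup.of (η g))) := by
    intro g hg s x hx
    have h1 := hZE2 (jK (FreeGroup.of s) * FreeGroup.of (η g))
      (FreeGroup.of (η g) * jK (FreeGroup.of s)) (by
        rw [hE]
        refine mem_union_right _ (mem_union_right _ (mem_union_right _ (mem_union_left _ ?_)))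
        exact mem_image.2 ⟨(g, s), mem_product.2 ⟨hg, mem_univ _⟩, rfl⟩) x hx
    rw [map_mul, map_mul] at h1
    exact h1
  have hMvi : ∀ g ∈ F, Mv κ L (Ψ (FreeGroup.of (η g))) i i := by
    intro g hg
    refine hMv m (Fin d) (Ψ.comp jK) Z κ τ τ₁ Λ L hS hn i (f s0 i) (Ψ (FreeGroup.of h)⁻¹)
      (Ψ (FreeGroup.of (η g))) (U g) ?_ hipos hi3 (by linarith) (hTw g hg) ?_
    · intro p
      refine hlenΛ (U g) ?_ _ _ p
      rw [h𝒲]
      exact mem_union_left _ (mem_union_right _ (mem_image_of_mem _ hg))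
    · intro y hy
      have h1 := hZE2 ((FreeGroup.of h)⁻¹ * FreeGroup.of (η g)) (jK (U g) * (FreeGroup.of h)⁻¹) (by
        rw [hE]
        refine mem_union_right _ (mem_union_right _ (mem_union_right _ (mem_union_right _
          (mem_union_left _ ?_))))
        exact mem_image.2 ⟨g, hg, rfl⟩) y hy
      rw [map_mul, map_mul] at h1
      exact h1
  refine hPc G F m (Fin d) (Ψ.comp jK) Z κ τ τ₁ Λ L hS hn i (fun g => Ψ (FreeGroup.of (η g)))
    hTw hMvi ?_ ?_
  · intro a ha b hb _ x hx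
    have h1 := hZE2 (FreeGroup.of (η (a * b))) (FreeGroup.of (η a) * FreeGroup.of (η b)) (by
      rw [hE]
      refine mem_union_right _ (mem_union_right _ (mem_union_right _ (mem_union_right _
        (mem_union_right _ ?_))))
      exact mem_image.2 ⟨(a, b), mem_product.2 ⟨ha, hb⟩, rfl⟩) x hx
    rw [map_mul Ψ (FreeGroup.of (η a))] at h1
    exact h1
  · intro a ha b hb hab x hx h1
    apply hx
    right
    refine ⟨(FreeGroup.of (η b))⁻¹ * FreeGroup.of (η a), mem_image.2 ⟨(a, b), mem_filter.2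
      ⟨mem_product.2 ⟨ha, hb⟩, hab⟩, rfl⟩, ?_⟩
    rw [map_mul, map_inv, Equiv.Perm.mul_apply, Equiv.Perm.inv_eq_iff_eq]
    exact h1

end

end Pool.Agent.N44.NS
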