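import Pool.Agent.N44.NS.Defs
import Pool.Agent.N303.KS.Cmp
import Pool.Agent.N303.KS.App

/-!
# Statements of the steps of the project NS (a non-sofic group)
-/

set_option autoImplicit false

namespace Pool.Agent.N44.NS

open Finset
open Pool.Agent.N303.KS
open Pool.Agent.H21R2 (IsSofic)
open Pool.Agent.W661.RC (HasT)

/-- WORDS: sofic approximations and finitely many words. -/
def S_WORDS : Prop :=
  ∀ (P : Type) [Group P], IsSofic P → ∀ E E' : Finset (FreeGroup P), (∀ r ∈ E, cn P r = 1) →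
    (∀ v ∈ E', cn P v ≠ 1) → ∀ ε : ℝ, 0 < ε →
    ∃ (d : ℕ) (_ : 0 < d) (Ψ : FreeGroup P →* Equiv.Perm (Fin d)),
      (ct fun y => (∃ r ∈ E, Ψ r y ≠ y) ∨ ∃ v ∈ E', Ψ v y = y) ≤ ε * d

/-- LEVEL: a function which is almost non-decreasing along the inverses of the generators is almost
constant along them, if the space is decomposed into irreducible pieces. -/
def S_LEVEL : Prop :=
  ∀ (m : ℕ) (κ τ δ : ℝ), 0 < κ → κ ≤ 1 / 100 → 0 < τ → 0 < δ → δ ≤ 1 →
    ∃ b : ℝ, 0 < b ∧ b ≤ κ ∧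
      ∀ (V : Type) [Fintype V] (ρ : FreeGroup (Fin m) →* Equiv.Perm V) (L : V → Option V)
        (X : V → ℝ),
        (ct fun x => L x = none) ≤ κ * Fintype.card V →
        (∀ e, bd ρ (fun x => L x = some e) ≤ b * sz L e) →
        (∀ e, ∀ p : V → Prop, (∀ x, p x → L x = some e) → bd ρ p ≤ τ * sz L e →
          ct p ≤ κ * sz L e ∨ (1 - κ) * sz L e ≤ ct p) →
        (∀ x, 0 ≤ X x) → (ct fun x => X x = 0) ≤ b * Fintype.card V →
        (∀ s, (ct fun x => X ((ρ (FreeGroup.of s))⁻¹ x) < (1 - b) * X x) ≤ b * Fintype.card V) →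
        ∀ s, (ct fun x => ¬ X ((ρ (FreeGroup.of s))⁻¹ x) ≤ (1 + δ) * X x) ≤
          20 * κ * Fintype.card V

/-- MOVE: a permutation which almost commutes with the action and is conjugate to a word under a
permutation `α` that moves the piece `i` into a piece of almost the same size, preserves `i`. -/
def S_MOVE : Prop :=
  ∀ (k : ℕ) (V : Type) [Fintype V] (ρ : FreeGroup (Fin k) →* Equiv.Perm V) (Z : V → Prop)
    (κ τ τ₁ Λ : ℝ) (L : V → Option V), Sys ρ Z κ τ τ₁ L → Num k κ τ τ₁ Λ →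
    ∀ (i j : V) (α β : Equiv.Perm V) (u : FreeGroup (Fin k)),
      (∀ p : V → Prop, (ct fun x => p x ∧ ¬ p (ρ u x)) ≤ Λ * bd ρ p) →
      0 < sz L i → (1 - κ) * sz L i ≤ ov L α i j → sz L j ≤ 11 / 10 * sz L i →
      Tw ρ Z (fun s => FreeGroup.of s) β → (∀ x, ¬ Z x → α (β x) = ρ u (α x)) →
      Mv κ L β i i

/-- PIECE: permutations which almost commute with the action and preserve a piece give a local
embedding into a finite group. -/
def S_PIECE : Prop :=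
  ∀ (G : Type) [Group G] (F : Finset G) (k : ℕ) (V : Type) [Fintype V]
    (ρ : FreeGroup (Fin k) →* Equiv.Perm V) (Z : V → Prop)
    (κ τ τ₁ Λ : ℝ) (L : V → Option V), Sys ρ Z κ τ τ₁ L → Num k κ τ τ₁ Λ →
    ∀ (i : V) (lam : G → Equiv.Perm V),
      (∀ g ∈ F, Tw ρ Z (fun s => FreeGroup.of s) (lam g)) →
      (∀ g ∈ F, Mv κ L (lam g) i i) →
      (∀ a ∈ F, ∀ b ∈ F, a * b ∈ F → ∀ x, ¬ Z x → lam (a * b) x = lam a (lam b x)) →
      (∀ a ∈ F, ∀ b ∈ F, a ≠ b → ∀ x, ¬ Z x → lam a x ≠ lam b x) →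
      ∃ (Q : Type) (_ : Group Q) (_ : Finite Q) (φ : G → Q),
        (∀ a ∈ F, ∀ b ∈ F, a * b ∈ F → φ (a * b) = φ a * φ b) ∧
          ∀ a ∈ F, ∀ b ∈ F, a ≠ b → φ a ≠ φ b

/-- MAIN: the analytic part. -/
def S_MAIN : Prop :=
  ∀ (G : Type) [Group G] (θ η : G →* G) (h : G), HasT G → Dat G θ η h → IsSofic G → LEF G

/-- NLEF: the group is not LEF. -/
def S_NLEF : Prop :=
  ∀ (G : Type) [Group G] (θ η : G →* G) (h : G) (k : ℕ) (γ : FreeGroup (Fin k) →* G),
    Function.Surjective γ → Dat G θ η h → ¬ LEF G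

/-- TT: property (T) for `E_3(A)`. -/
def S_TT : Prop :=
  ∀ (K : Type) [Field K] [Fintype K], 256 ≤ Fintype.card K → ∀ (A : Type) [Ring A] [Algebra K A]
    (g : Fin 4 → A), Algebra.adjoin K (Set.range g) = ⊤ → HasT (E3 A)

/-- DATA: the data for `E_3` of a ring with the relations of the Leavitt algebra. -/
def S_DATA : Prop :=
  ∀ (A : Type) [Ring A] [Nontrivial A] (x1 x2 y1 y2 : A), Leav x1 x2 y1 y2 →
    ∃ (θ η : E3 A →* E3 A) (h : E3 A), Dat (E3 A) θ η h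

/-- LEAV: existence of the algebra. -/
def S_LEAV : Prop :=
  ∃ (K : Type) (_ : Field K) (_ : Fintype K) (A : Type) (_ : Ring A) (_ : Algebra K A)
    (_ : Nontrivial A) (x1 x2 y1 y2 : A), 256 ≤ Fintype.card K ∧ Leav x1 x2 y1 y2 ∧
      Algebra.adjoin K (Set.range ![x1, x2, y1, y2]) = ⊤

/-- The final theorem from the steps. -/
theorem final_of (hM : S_MAIN) (hN : S_NLEF) (hT : S_TT) (hD : S_DATA) (hL : S_LEAV)
    (hF : ∀ (G : Type) [Group G], HasT G →
      ∃ (k : ℕ) (γ : FreeGroup (Fin k) →* G), Function.Surjective γ) :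
    ∃ (G : Type) (_ : Group G), HasT G ∧ ¬ IsSofic G := by
  obtain ⟨K, _, _, A, _, _, _, x1, x2, y1, y2, hK, hR, hg⟩ := hL
  have hTT : HasT (E3 A) := hT K hK A _ hg
  obtain ⟨θ, η, h, hDat⟩ := hD A x1 x2 y1 y2 hR
  refine ⟨E3 A, inferInstance, hTT, fun hS => ?_⟩
  obtain ⟨k, γ, hγ⟩ := hF _ hTT
  exact hN _ θ η h k γ hγ hDat (hM _ θ η h hTT hDat hS)

end Pool.Agent.N44.NS
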